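import Mathlib

set_option autoImplicit false
open scoped Topology

namespace Pool.Agent.Lib.MP_52bd65_al

open Classical in
/-- Folner condition for a subgroup -/
def FolS {G : Type*} [Group G] (K : Subgroup G) : Prop :=
  ∀ S : Finset G, (∀ s ∈ S, s ∈ K) → ∀ ε : ℝ, 0 < ε → ∃ F : Finset G, F.Nonempty ∧
    (∀ f ∈ F, f ∈ K) ∧ ∀ s ∈ S, ((F.filter (fun f => s * f ∉ F)).card : ℝ) ≤ ε * F.card

/-- local nature -/
theorem FolS.of_local {G : Type*} [Group G] {K : Subgroup G}
    (h : ∀ S : Finset G, (∀ s ∈ S, s ∈ K) → ∃ K' : Subgroup G, K' ≤ K ∧ (∀ s ∈ S, s ∈ K') ∧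
      FolS K') : FolS K := by
  intro S hS ε hε
  obtain ⟨K', hK', hSK', hF⟩ := h S hS
  obtain ⟨F, h1, h2, h3⟩ := hF S hSK' ε hε
  exact ⟨F, h1, fun f hf => hK' (h2 f hf), h3⟩

theorem FolS.bot {G : Type*} [Group G] : FolS (⊥ : Subgroup G) := by
  classical
  intro S hS ε hε
  refine ⟨{1}, by simp, by simp, ?_⟩
  intro s hs
  have : s = 1 := Subgroup.mem_bot.1 (hS s hs)
  subst this
  have h0 : ({1} : Finset G).filter (fun f => 1 * f ∉ ({1} : Finset G)) = ∅ := by
    rw [Finset.filter_eq_empty_iff]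
    intro x hx
    simpa using hx
  rw [h0]
  simp [hε.le]

/-- extensions, with a map that is multiplicative on `K` only -/
theorem FolS.ext {G A : Type*} [Group G] [Group A] {K K' : Subgroup G} {Q : Subgroup A}
    (π : G → A) (hmul : ∀ x ∈ K, ∀ y ∈ K, π (x * y) = π x * π y)
    (hker : ∀ x ∈ K, π x = 1 → x ∈ K') (hK' : ∀ x ∈ K', x ∈ K ∧ π x = 1)
    (hQ : ∀ x ∈ K, π x ∈ Q) (hQs : ∀ q ∈ Q, ∃ x ∈ K, π x = q)
    (hF : FolS K') (hFQ : FolS Q) : FolS K := by
  classical
  intro S hS ε hε
  have h1 : π 1 = 1 := by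
    have := hmul 1 (one_mem _) 1 (one_mem _)
    rw [mul_one] at this
    exact (mul_eq_left.1 this.symm)
  have hinv : ∀ x ∈ K, π x⁻¹ = (π x)⁻¹ := by
    intro x hx
    have := hmul x⁻¹ (inv_mem hx) x hx
    rw [inv_mul_cancel, h1] at this
    exact eq_inv_of_mul_eq_one_left this.symm
  obtain ⟨FQ, hFQne, hFQQ, hFQF⟩ := hFQ (S.image π) (by
    intro q hq
    obtain ⟨s, hs, rfl⟩ := Finset.mem_image.1 hq
    exact hQ s (hS s hs)) (ε / 2) (by linarith)
  have hch : ∀ q : A, ∃ x : G, q ∈ Q → x ∈ K ∧ π x = q := by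
    intro q
    by_cases hq : q ∈ Q
    · obtain ⟨x, hx, hxq⟩ := hQs q hq
      exact ⟨x, fun _ => ⟨hx, hxq⟩⟩
    · exact ⟨1, fun h => absurd h hq⟩
  choose σ hσ using hch
  set T : Finset G := Finset.image₂ (fun s q => (σ (π s * q))⁻¹ * s * σ q) S FQ with hT
  obtain ⟨FN, hFNne, hFNN, hFNF⟩ := hF T (by
    intro t ht
    obtain ⟨s, hs, q, hq, rfl⟩ := Finset.mem_image₂.1 ht
    have hqQ := hFQQ q hq
    have hsK := hS s hs
    have hsq : π s * q ∈ Q := mul_mem (hQ s hsK) hqQ
    obtain ⟨a1, a2⟩ := hσ q hqQ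
    obtain ⟨b1, b2⟩ := hσ _ hsq
    apply hker
    · exact mul_mem (mul_mem (inv_mem b1) hsK) a1
    · rw [hmul _ (mul_mem (inv_mem b1) hsK) _ a1, hmul _ (inv_mem b1) _ hsK, hinv _ b1, a2, b2]
      group) (ε / 2) (by linarith)
  set F : Finset G := (FQ ×ˢ FN).image (fun p => σ p.1 * p.2) with hFdef
  have hinj : Set.InjOn (fun p : A × G => σ p.1 * p.2) (FQ ×ˢ FN : Finset (A × G)) := by
    rintro ⟨q, n⟩ hqn ⟨q', n'⟩ hqn' h
    simp only [Finset.coe_product, Set.mem_prod, Finset.mem_coe] at hqn hqn'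
    simp only at h
    obtain ⟨a1, a2⟩ := hσ q (hFQQ q hqn.1)
    obtain ⟨b1, b2⟩ := hσ q' (hFQQ q' hqn'.1)
    obtain ⟨c1, c2⟩ := hK' n (hFNN n hqn.2)
    obtain ⟨d1, d2⟩ := hK' n' (hFNN n' hqn'.2)
    have h2 := congrArg π h
    rw [hmul _ a1 _ c1, hmul _ b1 _ d1, c2, d2, a2, b2, mul_one, mul_one] at h2
    subst h2
    have := mul_left_cancel h
    rw [this]
  have hcard : F.card = FQ.card * FN.card := by
    rw [hFdef, Finset.card_image_of_injOn hinj, Finset.card_product]
  refine ⟨F, ?_, ?_, ?_⟩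
  · exact (hFQne.product hFNne).image _
  · intro f hf
    obtain ⟨⟨q, n⟩, hqn, rfl⟩ := Finset.mem_image.1 hf
    rw [Finset.mem_product] at hqn
    exact mul_mem (hσ q (hFQQ q hqn.1)).1 (hK' n (hFNN n hqn.2)).1
  · intro s hs
    have hsub : F.filter (fun f => s * f ∉ F) ⊆
        ((FQ.filter (fun q => π s * q ∉ FQ)) ×ˢ FN).image (fun p => σ p.1 * p.2) ∪
        FQ.biUnion (fun q => (FN.filter (fun n => ((σ (π s * q))⁻¹ * s * σ q) * n ∉ FN)).image
          (fun n => σ q * n)) := by
      intro f hf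
      rw [Finset.mem_filter] at hf
      obtain ⟨hfF, hsf⟩ := hf
      obtain ⟨⟨q, n⟩, hqn, rfl⟩ := Finset.mem_image.1 hfF
      rw [Finset.mem_product] at hqn
      simp only at hsf ⊢
      rw [Finset.mem_union]
      by_cases hq : π s * q ∈ FQ
      · right
        rw [Finset.mem_biUnion]
        refine ⟨q, hqn.1, ?_⟩
        rw [Finset.mem_image]
        refine ⟨n, ?_, rfl⟩
        rw [Finset.mem_filter]
        refine ⟨hqn.2, ?_⟩
        intro hn
        apply hsf
        rw [hFdef, Finset.mem_image]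
        refine ⟨(π s * q, ((σ (π s * q))⁻¹ * s * σ q) * n), ?_, ?_⟩
        · rw [Finset.mem_product]
          exact ⟨hq, hn⟩
        · simp only; group
      · left
        rw [Finset.mem_image]
        refine ⟨(q, n), ?_, rfl⟩
        rw [Finset.mem_product, Finset.mem_filter]
        exact ⟨⟨hqn.1, hq⟩, hqn.2⟩
    have hc1 : ((F.filter (fun f => s * f ∉ F)).card : ℝ) ≤
        ((FQ.filter (fun q => π s * q ∉ FQ)).card : ℝ) * FN.card
          + ∑ q ∈ FQ, ((FN.filter (fun n => ((σ (π s * q))⁻¹ * s * σ q) * n ∉ FN)).card : ℝ) := by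
      have h2 := Finset.card_le_card hsub
      have h3 := h2.trans (Finset.card_union_le _ _)
      have h4 : (((FQ.filter (fun q => π s * q ∉ FQ)) ×ˢ FN).image (fun p => σ p.1 * p.2)).card
          ≤ (FQ.filter (fun q => π s * q ∉ FQ)).card * FN.card := by
        refine Finset.card_image_le.trans ?_
        rw [Finset.card_product]
      have h5 : (FQ.biUnion (fun q => (FN.filter
          (fun n => ((σ (π s * q))⁻¹ * s * σ q) * n ∉ FN)).image (fun n => σ q * n))).card
          ≤ ∑ q ∈ FQ, (FN.filter (fun n => ((σ (π s * q))⁻¹ * s * σ q) * n ∉ FN)).card := by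
        refine Finset.card_biUnion_le.trans ?_
        exact Finset.sum_le_sum fun q _ => Finset.card_image_le
      have h6 := h3.trans (add_le_add h4 h5)
      exact_mod_cast h6
    have hc2 : ((FQ.filter (fun q => π s * q ∉ FQ)).card : ℝ) ≤ ε / 2 * FQ.card :=
      hFQF (π s) (Finset.mem_image_of_mem π hs)
    have hc3 : ∑ q ∈ FQ, ((FN.filter (fun n => ((σ (π s * q))⁻¹ * s * σ q) * n ∉ FN)).card : ℝ)
        ≤ ∑ q ∈ FQ, (ε / 2 * FN.card) := by
      apply Finset.sum_le_sum
      intro q hq
      exact hFNF _ (Finset.mem_image₂_of_mem hs hq)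
    rw [Finset.sum_const, nsmul_eq_mul] at hc3
    rw [hcard]
    push_cast
    have hc4 := mul_le_mul_of_nonneg_right hc2 (Nat.cast_nonneg (α := ℝ) FN.card)
    calc _ ≤ _ := hc1
      _ ≤ ε / 2 * FQ.card * FN.card + FQ.card * (ε / 2 * FN.card) := add_le_add hc4 hc3
      _ = ε * (FQ.card * FN.card) := by ring

theorem FolS.of_finite {G : Type*} [Group G] {K : Subgroup G} (hK : (K : Set G).Finite) :
    FolS K := by
  classical
  intro S hS ε hε
  refine ⟨hK.toFinset, ⟨1, by simp [one_mem]⟩, fun f hf => by simpa using hf, ?_⟩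
  intro s hs
  have h0 : hK.toFinset.filter (fun f => s * f ∉ hK.toFinset) = ∅ := by
    rw [Finset.filter_eq_empty_iff]
    intro x hx
    rw [Set.Finite.mem_toFinset] at hx
    rw [not_not, Set.Finite.mem_toFinset]
    exact mul_mem (hS s hs) hx
  rw [h0]
  simp only [Finset.card_empty, Nat.cast_zero]
  positivity

theorem FolS.zpowers {G : Type*} [Group G] (x : G) : FolS (Subgroup.zpowers x) := by
  classical
  by_cases hx : IsOfFinOrder x
  · exact FolS.of_finite (finite_zpowers.2 hx)
  · intro S hS ε hε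
    have hinj : Function.Injective (fun n : ℤ => x ^ n) := injective_zpow_iff_not_isOfFinOrder.2 hx
    have hinjn : Function.Injective (fun n : ℕ => x ^ n) := injective_pow_iff_not_isOfFinOrder.2 hx
    -- exponents
    have hch : ∀ s : G, ∃ k : ℤ, s ∈ S → x ^ k = s := by
      intro s
      by_cases hs : s ∈ S
      · obtain ⟨k, hk⟩ := Subgroup.mem_zpowers_iff.1 (hS s hs)
        exact ⟨k, fun _ => hk⟩
      · exact ⟨0, fun h => absurd h hs⟩
    choose k hk using hch
    set M : ℕ := S.sup (fun s => (k s).natAbs) with hM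
    obtain ⟨n, hn⟩ := exists_nat_gt ((M : ℝ) / ε)
    have hn0 : 0 < n := by
      have h1 : (0 : ℝ) ≤ (M : ℝ) / ε := by positivity
      exact_mod_cast lt_of_le_of_lt h1 hn
    refine ⟨(Finset.range n).image (fun i : ℕ => x ^ i), ?_, ?_, ?_⟩
    · exact ⟨x ^ 0, Finset.mem_image_of_mem _ (Finset.mem_range.2 hn0)⟩
    · intro f hf
      obtain ⟨i, _, rfl⟩ := Finset.mem_image.1 hf
      exact Subgroup.npow_mem_zpowers x i
    · intro s hs
      rw [Finset.card_image_of_injective _ hinjn, Finset.card_range]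
      -- bad indices
      have hsub : ((Finset.range n).image (fun i : ℕ => x ^ i)).filter
          (fun f => s * f ∉ (Finset.range n).image (fun i : ℕ => x ^ i)) ⊆
          ((Finset.range n).filter (fun i : ℕ => ¬ (0 ≤ k s + (i : ℤ) ∧ k s + (i : ℤ) < (n : ℤ)))).image
            (fun i : ℕ => x ^ i) := by
        intro f hf
        rw [Finset.mem_filter] at hf
        obtain ⟨hf1, hf2⟩ := hf
        obtain ⟨i, hi, rfl⟩ := Finset.mem_image.1 hf1
        rw [Finset.mem_image]
        refine ⟨i, ?_, rfl⟩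
        rw [Finset.mem_filter]
        refine ⟨hi, ?_⟩
        rintro ⟨h1, h2⟩
        apply hf2
        rw [Finset.mem_image]
        refine ⟨(k s + i).toNat, ?_, ?_⟩
        · rw [Finset.mem_range]
          omega
        · have h3 : x ^ ((k s + i).toNat) = x ^ (k s + (i : ℤ)) := by
            rw [← zpow_natCast, Int.toNat_of_nonneg h1]
          rw [h3, zpow_add, hk s hs, zpow_natCast]
      have hcard : ((Finset.range n).filter (fun i : ℕ => ¬ (0 ≤ k s + (i : ℤ) ∧ k s + (i : ℤ) < (n : ℤ)))).card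
          ≤ (k s).natAbs := by
        rcases le_total 0 (k s) with hks | hks
        · have : (Finset.range n).filter (fun i : ℕ => ¬ (0 ≤ k s + (i : ℤ) ∧ k s + (i : ℤ) < (n : ℤ))) ⊆
              Finset.Ico (n - (k s).natAbs) n := by
            intro i hi
            rw [Finset.mem_filter, Finset.mem_range] at hi
            rw [Finset.mem_Ico]
            obtain ⟨h1, h2⟩ := hi
            constructor
            · by_contra h3
              apply h2
              omega
            · exact h1
          refine (Finset.card_le_card this).trans ?_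
          rw [Nat.card_Ico]
          omega
        · have : (Finset.range n).filter (fun i : ℕ => ¬ (0 ≤ k s + (i : ℤ) ∧ k s + (i : ℤ) < (n : ℤ))) ⊆
              Finset.range ((k s).natAbs) := by
            intro i hi
            rw [Finset.mem_filter, Finset.mem_range] at hi
            rw [Finset.mem_range]
            obtain ⟨h1, h2⟩ := hi
            by_contra h3
            apply h2
            omega
          refine (Finset.card_le_card this).trans ?_
          rw [Finset.card_range]
      have hle : (k s).natAbs ≤ M := Finset.le_sup (f := fun s => (k s).natAbs) hs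
      have h1 := (Finset.card_le_card hsub).trans (Finset.card_image_le.trans (hcard.trans hle))
      have h2 : ((((Finset.range n).image (fun i : ℕ => x ^ i)).filter
          (fun f => s * f ∉ (Finset.range n).image (fun i : ℕ => x ^ i))).card : ℝ) ≤ M := by
        exact_mod_cast h1
      refine h2.trans ?_
      rw [div_lt_iff₀ hε] at hn
      linarith

theorem FolS.comm {A : Type*} [CommGroup A] (K : Subgroup A) : FolS K := by
  classical
  apply FolS.of_local
  intro S hS
  refine ⟨Subgroup.closure (S : Set A), ?_, fun s hs => Subgroup.subset_closure hs, ?_⟩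
  · rw [Subgroup.closure_le]
    exact fun s hs => hS s hs
  clear hS
  induction S using Finset.induction_on with
  | empty =>
    rw [Finset.coe_empty, Subgroup.closure_empty]
    exact FolS.bot
  | insert a S ha ih =>
    set N := Subgroup.closure (S : Set A) with hN
    have hcl : Subgroup.closure ((insert a S : Finset A) : Set A) = Subgroup.zpowers a ⊔ N := by
      rw [Finset.coe_insert, Set.insert_eq, Subgroup.closure_union, Subgroup.zpowers_eq_closure]
    rw [hcl]
    refine FolS.ext (K' := N) (Q := Subgroup.zpowers (QuotientGroup.mk' N a))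
      (QuotientGroup.mk' N) ?_ ?_ ?_ ?_ ?_ ih (FolS.zpowers _)
    · intro x _ y _
      exact map_mul _ x y
    · intro x _ hx
      exact (QuotientGroup.eq_one_iff x).1 hx
    · intro x hx
      exact ⟨Subgroup.mem_sup_right hx, (QuotientGroup.eq_one_iff x).2 hx⟩
    · intro x hx
      obtain ⟨y, hy, z, hz, rfl⟩ := Subgroup.mem_sup.1 hx
      obtain ⟨k, rfl⟩ := Subgroup.mem_zpowers_iff.1 hy
      rw [map_mul, (QuotientGroup.eq_one_iff z).2 hz |> (fun h => (h : QuotientGroup.mk' N z = 1)),
        mul_one, map_zpow]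
      exact Subgroup.zpow_mem_zpowers _ _
    · intro q hq
      obtain ⟨k, rfl⟩ := Subgroup.mem_zpowers_iff.1 hq
      exact ⟨a ^ k, Subgroup.mem_sup_left (Subgroup.zpow_mem_zpowers _ _), map_zpow _ _ _⟩

/-- invariant mean from the Folner condition -/
theorem FolS.mean {G : Type*} [Group G] (h : FolS (⊤ : Subgroup G)) :
    ∃ m : Set G → ℝ,
        (∀ A, 0 ≤ m A) ∧ m Set.univ = 1 ∧
        (∀ A B : Set G, Disjoint A B → m (A ∪ B) = m A + m B) ∧
        (∀ (g : G) (A : Set G), m ((fun h => g * h) '' A) = m A) := by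
  classical
  have hch : ∀ i : Finset G × ℕ, ∃ F : Finset G, F.Nonempty ∧
      ∀ s ∈ i.1, ((F.filter (fun f => s * f ∉ F)).card : ℝ) ≤ 1 / ((i.2 : ℝ) + 1) * F.card := by
    intro i
    obtain ⟨F, h1, _, h3⟩ := h i.1 (fun _ _ => trivial) (1 / ((i.2 : ℝ) + 1)) (by positivity)
    exact ⟨F, h1, h3⟩
  choose F hFne hF using hch
  let u : Ultrafilter (Finset G × ℕ) := Ultrafilter.of Filter.atTop
  have hu : (u : Filter (Finset G × ℕ)) ≤ Filter.atTop := Ultrafilter.of_le _
  let a : Set G → Finset G × ℕ → ℝ := fun A i =>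
    (((F i).filter (fun f => f ∈ A)).card : ℝ) / (F i).card
  have hpos : ∀ i, (0 : ℝ) < (F i).card := by
    intro i
    exact_mod_cast (hFne i).card_pos
  have ha : ∀ A i, a A i ∈ Set.Icc (0 : ℝ) 1 := by
    intro A i
    refine ⟨by positivity, ?_⟩
    rw [div_le_one (hpos i)]
    exact_mod_cast Finset.card_le_card (Finset.filter_subset _ _)
  have hlim : ∀ A, ∃ x : ℝ, x ∈ Set.Icc (0 : ℝ) 1 ∧ Filter.Tendsto (a A) u (𝓝 x) := by
    intro A
    obtain ⟨x, hx, hux⟩ := isCompact_Icc.ultrafilter_le_nhds' (u.map (a A)) (by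
      rw [Ultrafilter.mem_map]
      exact Filter.univ_mem' (ha A))
    exact ⟨x, hx, hux⟩
  choose m hm1 hm2 using hlim
  refine ⟨m, fun A => (hm1 A).1, ?_, ?_, ?_⟩
  · have h1 : a Set.univ = fun _ => 1 := by
      funext i
      simp only [a, Set.mem_univ, Finset.filter_true]
      exact div_self (hpos i).ne'
    have h2 := hm2 Set.univ
    rw [h1] at h2
    exact tendsto_nhds_unique h2 tendsto_const_nhds
  · intro A B hAB
    have h1 : a (A ∪ B) = fun i => a A i + a B i := by
      funext i
      simp only [a]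
      rw [← add_div, ← Nat.cast_add, ← Finset.card_union_of_disjoint]
      · congr 3
        ext x
        simp only [Finset.mem_filter, Finset.mem_union, Set.mem_union]
        tauto
      · rw [Finset.disjoint_filter]
        intro x _ hxA hxB
        exact Set.disjoint_left.1 hAB hxA hxB
    have h2 := hm2 (A ∪ B)
    rw [h1] at h2
    exact tendsto_nhds_unique h2 ((hm2 A).add (hm2 B))
  · -- invariance
    have hle : ∀ (g : G) (A : Set G), m ((fun h => g * h) '' A) ≤ m A := by
      intro g A
      have h1 : ∀ᶠ i in (u : Filter (Finset G × ℕ)), a ((fun h => g * h) '' A) i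
          ≤ a A i + 1 / ((i.2 : ℝ) + 1) := by
        have h2 : ∀ᶠ i in (Filter.atTop : Filter (Finset G × ℕ)), ({g⁻¹}, 0) ≤ i :=
          Filter.eventually_ge_atTop _
        filter_upwards [hu h2] with i hi
        have hgi : g⁻¹ ∈ i.1 := hi.1 (Finset.mem_singleton_self _)
        have h3 := hF i g⁻¹ hgi
        have h4 : ((F i).filter (fun f => f ∈ (fun h => g * h) '' A)).card ≤
            ((F i).filter (fun f => f ∈ A)).card + ((F i).filter (fun f => g⁻¹ * f ∉ F i)).card := by
          have h5 : (F i).filter (fun f => f ∈ (fun h => g * h) '' A) ⊆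
              ((F i).filter (fun f => f ∈ A)).image (fun f => g * f) ∪
              (F i).filter (fun f => g⁻¹ * f ∉ F i) := by
            intro f hf
            rw [Finset.mem_filter] at hf
            obtain ⟨hf1, f', hf', rfl⟩ := hf
            rw [Finset.mem_union]
            by_cases h6 : f' ∈ F i
            · left
              exact Finset.mem_image_of_mem _ (Finset.mem_filter.2 ⟨h6, hf'⟩)
            · right
              rw [Finset.mem_filter]
              refine ⟨hf1, ?_⟩
              simpa using h6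
          refine (Finset.card_le_card h5).trans ((Finset.card_union_le _ _).trans ?_)
          exact Nat.add_le_add_right Finset.card_image_le _
        simp only [a]
        have h7 : (((F i).filter (fun f => f ∈ (fun h => g * h) '' A)).card : ℝ) ≤
            ((F i).filter (fun f => f ∈ A)).card + 1 / ((i.2 : ℝ) + 1) * (F i).card := by
          have h8 : (((F i).filter (fun f => f ∈ (fun h => g * h) '' A)).card : ℝ) ≤
            ((F i).filter (fun f => f ∈ A)).card + ((F i).filter (fun f => g⁻¹ * f ∉ F i)).card := by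
            exact_mod_cast h4
          linarith
        rw [div_le_iff₀ (hpos i), add_mul, div_mul_cancel₀ _ (hpos i).ne']
        exact h7
      have h9 : Filter.Tendsto (fun i : Finset G × ℕ => a A i + 1 / ((i.2 : ℝ) + 1)) u
          (𝓝 (m A + 0)) := by
        refine (hm2 A).add ?_
        have h10 : Filter.Tendsto (fun i : Finset G × ℕ => i.2) Filter.atTop Filter.atTop :=
          Filter.tendsto_atTop_atTop.2 fun b => ⟨(∅, b), fun i hi => hi.2⟩
        exact (tendsto_one_div_add_atTop_nhds_zero_nat.comp h10).mono_left hu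
      rw [add_zero] at h9
      exact le_of_tendsto_of_tendsto (hm2 _) h9 h1
    intro g A
    apply le_antisymm (hle g A)
    have h1 := hle g⁻¹ ((fun h => g * h) '' A)
    have h2 : (fun h => g⁻¹ * h) '' ((fun h => g * h) '' A) = A := by
      rw [Set.image_image]
      simp
    rwa [h2] at h1

/-- extension by a commutative group -/
theorem FolS.ext_comm {G A : Type*} [Group G] [CommGroup A] {K K' : Subgroup G}
    (π : G → A) (hmul : ∀ x ∈ K, ∀ y ∈ K, π (x * y) = π x * π y)
    (hker : ∀ x ∈ K, π x = 1 → x ∈ K') (hK' : ∀ x ∈ K', x ∈ K ∧ π x = 1)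
    (hF : FolS K') : FolS K := by
  have h1 : π 1 = 1 := by
    have := hmul 1 (one_mem _) 1 (one_mem _)
    rw [mul_one] at this
    exact (mul_eq_left.1 this.symm)
  have hinv : ∀ x ∈ K, π x⁻¹ = (π x)⁻¹ := by
    intro x hx
    have := hmul x⁻¹ (inv_mem hx) x hx
    rw [inv_mul_cancel, h1] at this
    exact eq_inv_of_mul_eq_one_left this.symm
  let Q : Subgroup A :=
    { carrier := {q | ∃ x ∈ K, π x = q}
      one_mem' := ⟨1, one_mem _, h1⟩
      mul_mem' := by
        rintro a b ⟨x, hx, rfl⟩ ⟨y, hy, rfl⟩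
        exact ⟨x * y, mul_mem hx hy, hmul x hx y hy⟩
      inv_mem' := by
        rintro a ⟨x, hx, rfl⟩
        exact ⟨x⁻¹, inv_mem hx, hinv x hx⟩ }
  exact FolS.ext (Q := Q) π hmul hker hK' (fun x hx => ⟨x, hx, rfl⟩) (fun q hq => hq) hF
    (FolS.comm Q)

theorem FolS.map {G G' : Type*} [Group G] [Group G'] {K : Subgroup G} (h : FolS K)
    (f : G →* G') (hf : Function.Injective f) : FolS (K.map f) := by
  classical
  intro S hS ε hε
  have hch : ∀ s : G', ∃ x : G, s ∈ S → x ∈ K ∧ f x = s := by
    intro s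
    by_cases hs : s ∈ S
    · obtain ⟨x, hx, hxs⟩ := hS s hs
      exact ⟨x, fun _ => ⟨hx, hxs⟩⟩
    · exact ⟨1, fun h => absurd h hs⟩
  choose σ hσ using hch
  obtain ⟨F, h1, h2, h3⟩ := h (S.image σ) (by
    intro x hx
    obtain ⟨s, hs, rfl⟩ := Finset.mem_image.1 hx
    exact (hσ s hs).1) ε hε
  refine ⟨F.image f, h1.image _, ?_, ?_⟩
  · intro y hy
    obtain ⟨x, hx, rfl⟩ := Finset.mem_image.1 hy
    exact ⟨x, h2 x hx, rfl⟩
  · intro s hs
    have h4 := h3 (σ s) (Finset.mem_image_of_mem _ hs)
    have h5 : ((F.image f).filter (fun y => s * y ∉ F.image f)) ⊆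
        (F.filter (fun y => σ s * y ∉ F)).image f := by
      intro y hy
      rw [Finset.mem_filter] at hy
      obtain ⟨hy1, hy2⟩ := hy
      obtain ⟨x, hx, rfl⟩ := Finset.mem_image.1 hy1
      refine Finset.mem_image_of_mem _ (Finset.mem_filter.2 ⟨hx, ?_⟩)
      intro h6
      apply hy2
      refine Finset.mem_image.2 ⟨_, h6, ?_⟩
      rw [map_mul, (hσ s hs).2]
    have h6 := (Finset.card_le_card h5).trans Finset.card_image_le
    rw [Finset.card_image_of_injective _ hf]
    exact le_trans (by exact_mod_cast h6) h4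

theorem FolS.top {G : Type*} [Group G] {K : Subgroup G} (h : FolS K) :
    FolS (⊤ : Subgroup K) := by
  classical
  intro S _ ε hε
  obtain ⟨F, h1, h2, h3⟩ := h (S.image (fun x : K => (x : G))) (by
    intro x hx
    obtain ⟨s, _, rfl⟩ := Finset.mem_image.1 hx
    exact s.2) ε hε
  refine ⟨F.subtype (fun x => x ∈ K), ?_, fun _ _ => trivial, ?_⟩
  · obtain ⟨x, hx⟩ := h1
    exact ⟨⟨x, h2 x hx⟩, Finset.mem_subtype.2 hx⟩
  · intro s hs
    have h4 := h3 s (Finset.mem_image_of_mem (fun x : K => (x : G)) hs)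
    have h5 : (F.subtype (fun x => x ∈ K)).card = F.card := by
      rw [Finset.card_subtype, Finset.filter_true_of_mem h2]
    have h6 : ((F.subtype (fun x => x ∈ K)).filter
        (fun y => s * y ∉ F.subtype (fun x => x ∈ K))).card
        ≤ (F.filter (fun y => (s : G) * y ∉ F)).card := by
      rw [← Finset.card_image_of_injective _ Subtype.val_injective]
      apply Finset.card_le_card
      intro y hy
      obtain ⟨x, hx, rfl⟩ := Finset.mem_image.1 hy
      rw [Finset.mem_filter, Finset.mem_subtype, Finset.mem_subtype] at hx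
      exact Finset.mem_filter.2 hx
    rw [h5]
    refine le_trans ?_ h4
    exact Nat.cast_le.2 (by convert h6)

end Pool.Agent.Lib.MP_52bd65_al
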