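import Pool.Agent.Lib.MP_52bd65_al.Order

set_option autoImplicit false

namespace Pool.Agent.Lib.MP_52bd65_al

open Filter

theorem exists_theta : Nonempty (Colex (ℚ →₀ ℤ) ≃o ℚ) := by
  have : Countable (Colex (ℚ →₀ ℤ)) := by
    have : Function.Injective (fun v : Colex (ℚ →₀ ℤ) => (ofColex v : ℚ →₀ ℤ)) :=
      fun v w h => h
    exact this.countable
  have : Nonempty (Colex (ℚ →₀ ℤ)) := ⟨0⟩
  have : NoMaxOrder (Colex (ℚ →₀ ℤ)) := by
    refine ⟨fun v => ⟨v + de 0, ?_⟩⟩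
    rw [lt_iff_ev]
    refine ⟨0, ?_, ?_⟩
    · intro j hj
      rw [ev_add, ev_de_ne hj.ne, add_zero]
    · rw [ev_add, ev_de_self]
      linarith
  have : NoMinOrder (Colex (ℚ →₀ ℤ)) := by
    refine ⟨fun v => ⟨v - de 0, ?_⟩⟩
    rw [lt_iff_ev]
    refine ⟨0, ?_, ?_⟩
    · intro j hj
      rw [ev_sub, ev_de_ne hj.ne, sub_zero]
    · rw [ev_sub, ev_de_self]
      linarith
  have : DenselyOrdered (Colex (ℚ →₀ ℤ)) := by
    refine ⟨fun v w h => ?_⟩
    rw [lt_iff_ev] at h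
    obtain ⟨i, h1, h2⟩ := h
    refine ⟨v + de (i - 1), ?_, ?_⟩
    · rw [lt_iff_ev]
      refine ⟨i - 1, ?_, ?_⟩
      · intro j hj
        rw [ev_add, ev_de_ne hj.ne, add_zero]
      · rw [ev_add, ev_de_self]
        linarith
    · rw [lt_iff_ev]
      refine ⟨i, ?_, ?_⟩
      · intro j hj
        rw [ev_add, ev_de_ne (show i - 1 ≠ j by linarith |> fun _ => (by
          have : i - 1 < j := by linarith
          exact this.ne)), add_zero]
        exact h1 j hj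
      · rw [ev_add, ev_de_ne (show i - 1 ≠ i by
          have : i - 1 < i := by linarith
          exact this.ne), add_zero]
        exact h2
  exact Order.iso_of_countable_dense _ _

/-- the order isomorphism with the rationals -/
noncomputable def theta : Colex (ℚ →₀ ℤ) ≃o ℚ := Classical.choice exists_theta

/-- the embedding of the rationals -/
noncomputable def psi (q : ℚ) : ℚ := theta (de q)

theorem psi_strictMono : StrictMono psi := fun _ _ h => theta.strictMono (de_lt h)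

/-- conjugation by `theta` -/
noncomputable def cj : (Colex (ℚ →₀ ℤ) ≃o Colex (ℚ →₀ ℤ)) →* (ℚ ≃o ℚ) where
  toFun f := (theta.symm.trans f).trans theta
  map_one' := by
    refine RelIso.ext fun v => ?_
    show theta (theta.symm v) = v
    exact theta.apply_symm_apply v
  map_mul' f g := by
    refine RelIso.ext fun v => ?_
    show theta (f (g (theta.symm v))) = theta (f (theta.symm (theta (g (theta.symm v)))))
    rw [theta.symm_apply_apply]

theorem cj_apply (f : Colex (ℚ →₀ ℤ) ≃o Colex (ℚ →₀ ℤ)) (v : ℚ) :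
    cj f v = theta (f (theta.symm v)) := rfl

theorem cj_injective : Function.Injective cj := by
  intro f g h
  refine RelIso.ext fun v => ?_
  have h1 : cj f (theta v) = cj g (theta v) := by rw [h]
  rw [cj_apply, cj_apply, theta.symm_apply_apply] at h1
  exact theta.injective h1

/-- the self embedding of the automorphism group -/
noncomputable def EE : (ℚ ≃o ℚ) →* (ℚ ≃o ℚ) := cj.comp peHom

/-- the local group -/
noncomputable def WH : Subgroup (ℚ ≃o ℚ) := (WW ℚ).map cj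

theorem EE_psi (g : ℚ ≃o ℚ) (q : ℚ) : EE g (psi q) = psi (g q) := by
  show theta (pe g (theta.symm (theta (de q)))) = theta (de (g q))
  rw [theta.symm_apply_apply, pe_de]

theorem EE_disj {g : ℚ ≃o ℚ} (h : EE g ∈ WH) : g = 1 := by
  obtain ⟨f, hf, hfg⟩ := h
  have : f = peHom g := cj_injective hfg
  rw [this] at hf
  exact pe_disj hf

theorem EE_injective : Function.Injective EE := by
  rw [injective_iff_map_eq_one]
  intro g hg
  apply EE_disj
  rw [hg]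
  exact one_mem _

theorem EE_norm (g : ℚ ≃o ℚ) {w : ℚ ≃o ℚ} (hw : w ∈ WH) : EE g * w * (EE g)⁻¹ ∈ WH := by
  obtain ⟨f, hf, rfl⟩ := hw
  refine ⟨peHom g * f * (peHom g)⁻¹, pe_norm g hf, ?_⟩
  rw [map_mul, map_mul, map_inv]
  rfl

theorem FolS_WH : FolS WH := FolS_WW.map cj cj_injective

theorem local_WH (z y c : ℚ) (hz : z < c) (hy : y < c) :
    ∃ s ∈ WH, s (psi z) = psi y ∧ ∀ x, c ≤ x → s (psi x) = psi x := by
  obtain ⟨s, h1, h2, h3⟩ := exists_local z y c hz hy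
  refine ⟨cj s, ⟨s, h1, rfl⟩, ?_, ?_⟩
  · rw [cj_apply]
    unfold psi
    rw [theta.symm_apply_apply, h2]
  · intro x hx
    rw [cj_apply]
    unfold psi
    rw [theta.symm_apply_apply, h3 x hx]

/-- the wreath step -/
noncomputable def stp (K : Subgroup (ℚ ≃o ℚ)) : Subgroup (ℚ ≃o ℚ) where
  carrier := {x | ∃ w ∈ WH, ∃ g ∈ K, x = w * EE g}
  one_mem' := ⟨1, one_mem _, 1, one_mem _, by rw [map_one, mul_one]⟩
  mul_mem' := by
    rintro x x' ⟨w, hw, g, hg, rfl⟩ ⟨w', hw', g', hg', rfl⟩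
    refine ⟨w * (EE g * w' * (EE g)⁻¹), mul_mem hw (EE_norm g hw'), g * g', mul_mem hg hg', ?_⟩
    rw [map_mul]
    group
  inv_mem' := by
    rintro x ⟨w, hw, g, hg, rfl⟩
    refine ⟨EE g⁻¹ * w⁻¹ * (EE g⁻¹)⁻¹, EE_norm g⁻¹ (inv_mem hw), g⁻¹, inv_mem hg, ?_⟩
    rw [map_inv]
    group

theorem stp_unique {w w' g g' : ℚ ≃o ℚ} (hw : w ∈ WH) (hw' : w' ∈ WH)
    (h : w * EE g = w' * EE g') : g = g' := by
  have h1 : EE (g' * g⁻¹) = w'⁻¹ * w := by
    rw [map_mul, map_inv]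
    rw [mul_inv_eq_iff_eq_mul, mul_assoc, h]
    group
  have h2 : g' * g⁻¹ = 1 := EE_disj (by rw [h1]; exact mul_mem (inv_mem hw') hw)
  exact (mul_inv_eq_one.1 h2).symm

theorem FolS_stp {K : Subgroup (ℚ ≃o ℚ)} (hK : FolS K) : FolS (stp K) := by
  have hch : ∀ x : ℚ ≃o ℚ, ∃ g : ℚ ≃o ℚ, x ∈ stp K → g ∈ K ∧ ∃ w ∈ WH, x = w * EE g := by
    intro x
    by_cases hx : x ∈ stp K
    · obtain ⟨w, hw, g, hg, h⟩ := hx
      exact ⟨g, fun _ => ⟨hg, w, hw, h⟩⟩
    · exact ⟨1, fun h => absurd h hx⟩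
  choose π hπ using hch
  refine FolS.ext (K' := WH) (Q := K) π ?_ ?_ ?_ ?_ ?_ FolS_WH hK
  · intro x hx y hy
    obtain ⟨_, w, hw, h1⟩ := hπ x hx
    obtain ⟨_, w', hw', h2⟩ := hπ y hy
    obtain ⟨_, w'', hw'', h3⟩ := hπ (x * y) (mul_mem hx hy)
    refine (stp_unique (w := w * (EE (π x) * w' * (EE (π x))⁻¹)) (w' := w'')
      (mul_mem hw (EE_norm _ hw')) hw'' ?_).symm
    rw [← h3]
    conv_rhs => rw [h1, h2]
    rw [map_mul]
    group
  · intro x hx h
    obtain ⟨_, w, hw, h1⟩ := hπ x hx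
    rw [h, map_one, mul_one] at h1
    rw [h1]
    exact hw
  · intro x hx
    have hx' : x ∈ stp K := ⟨x, hx, 1, one_mem _, by rw [map_one, mul_one]⟩
    refine ⟨hx', ?_⟩
    obtain ⟨_, w, hw, h1⟩ := hπ x hx'
    refine stp_unique hw hx (h1.symm.trans ?_)
    rw [map_one, mul_one]
  · intro x hx
    exact (hπ x hx).1
  · intro q hq
    have hx' : EE q ∈ stp K := ⟨1, one_mem _, q, hq, by rw [one_mul]⟩
    refine ⟨EE q, hx', ?_⟩
    obtain ⟨_, w, hw, h1⟩ := hπ (EE q) hx'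
    refine stp_unique hw (one_mem _) (h1.symm.trans ?_)
    rw [one_mul]

theorem stp_mono {K K' : Subgroup (ℚ ≃o ℚ)} (h : K ≤ K') : stp K ≤ stp K' := by
  rintro x ⟨w, hw, g, hg, rfl⟩
  exact ⟨w, hw, g, h hg, rfl⟩

/-- the tower of groups -/
noncomputable def GG : ℕ → Subgroup (ℚ ≃o ℚ)
  | 0 => ⊥
  | n + 1 => stp (GG n)

theorem GG_succ (n : ℕ) : GG (n + 1) = stp (GG n) := rfl

theorem FolS_GG (n : ℕ) : FolS (GG n) := by
  induction n with
  | zero => exact FolS.bot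
  | succ n ih => exact FolS_stp ih

theorem GG_le_succ (n : ℕ) : GG n ≤ GG (n + 1) := by
  induction n with
  | zero => exact bot_le
  | succ n ih => exact stp_mono ih

theorem GG_mono : Monotone GG := monotone_nat_of_le_succ GG_le_succ

/-- the union of the tower -/
noncomputable def Gam : Subgroup (ℚ ≃o ℚ) where
  carrier := {x | ∃ n, x ∈ GG n}
  one_mem' := ⟨0, one_mem _⟩
  mul_mem' := by
    rintro x y ⟨n, hn⟩ ⟨m, hm⟩
    exact ⟨max n m, mul_mem (GG_mono (le_max_left _ _) hn) (GG_mono (le_max_right _ _) hm)⟩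
  inv_mem' := by
    rintro x ⟨n, hn⟩
    exact ⟨n, inv_mem hn⟩

theorem FolS_Gam : FolS Gam := by
  classical
  apply FolS.of_local
  intro S hS
  have hch : ∀ s : ℚ ≃o ℚ, ∃ n : ℕ, s ∈ S → s ∈ GG n := by
    intro s
    by_cases hs : s ∈ S
    · obtain ⟨F, hF⟩ := hS s hs
      exact ⟨F, fun _ => hF⟩
    · exact ⟨0, fun h => absurd h hs⟩
  choose Φ hΦ using hch
  refine ⟨GG (S.sup Φ), fun f hf => ⟨_, hf⟩, ?_, FolS_GG _⟩
  intro s hs
  exact GG_mono (Finset.le_sup hs) (hΦ s hs)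

theorem EE_Gam {g : ℚ ≃o ℚ} (hg : g ∈ Gam) : EE g ∈ Gam := by
  obtain ⟨n, hn⟩ := hg
  exact ⟨n + 1, 1, one_mem _, g, hn, by rw [one_mul]⟩

theorem WH_Gam {w : ℚ ≃o ℚ} (hw : w ∈ WH) : w ∈ Gam :=
  ⟨1, w, hw, 1, one_mem _, by rw [map_one, mul_one]⟩

theorem trans_level (k : ℕ) : ∀ a b : Fin k → ℚ, StrictMono a → StrictMono b →
    ∃ g ∈ Gam, ∀ i, g (psi^[k] (a i)) = psi^[k] (b i) := by
  induction k with
  | zero =>
    intro a b _ _
    exact ⟨1, one_mem _, fun i => i.elim0⟩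
  | succ k ih =>
    intro a b ha hb
    obtain ⟨g, hg, hgab⟩ := ih (fun i => a i.succ) (fun i => b i.succ)
      (fun i j h => ha (Fin.succ_lt_succ_iff.2 h)) (fun i j h => hb (Fin.succ_lt_succ_iff.2 h))
    have hc : ∃ c : ℚ, g (psi^[k] (a 0)) < c ∧ psi^[k] (b 0) < c ∧
        ∀ i : Fin k, c ≤ psi^[k] (b i.succ) := by
      rcases k with _ | k
      · refine ⟨max (g (psi^[0] (a 0))) (psi^[0] (b 0)) + 1, ?_, ?_, fun i => i.elim0⟩
        · exact lt_of_le_of_lt (le_max_left _ _) (lt_add_one _)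
        · exact lt_of_le_of_lt (le_max_right _ _) (lt_add_one _)
      · have hps := psi_strictMono.iterate (k + 1)
        refine ⟨psi^[k + 1] (b (Fin.succ 0)), ?_, ?_, ?_⟩
        · rw [← hgab 0]
          exact g.strictMono (hps (ha (Fin.succ_pos 0)))
        · exact hps (hb (Fin.succ_pos 0))
        · intro i
          exact hps.monotone (hb.monotone (Fin.succ_le_succ_iff.2 (Fin.zero_le i)))
    obtain ⟨c, hc1, hc2, hc3⟩ := hc
    obtain ⟨s, hs1, hs2, hs3⟩ := local_WH _ _ c hc1 hc2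
    refine ⟨s * EE g, mul_mem (WH_Gam hs1) (EE_Gam hg), ?_⟩
    intro i
    show s (EE g (psi^[k + 1] (a i))) = psi^[k + 1] (b i)
    rw [Function.iterate_succ_apply', Function.iterate_succ_apply', EE_psi]
    refine Fin.cases ?_ ?_ i
    · exact hs2
    · intro j
      have h1 := hgab j
      rw [h1]
      exact hs3 _ (hc3 j)

/-- the ultrafilter -/
noncomputable def phi : Ultrafilter ℕ := Filter.hyperfilter ℕ

theorem phi_eventually {p : ℕ → Prop} (N : ℕ) (h : ∀ n, N ≤ n → p n) :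
    ∀ᶠ n in (phi : Filter ℕ), p n := by
  have h1 : (phi : Filter ℕ) ≤ Filter.atTop := Nat.hyperfilter_le_atTop
  exact h1 (Filter.eventually_atTop.2 ⟨N, h⟩)

/-- points of the limit -/
noncomputable def iX (N : ℕ) (q : ℚ) : Germ (phi : Filter ℕ) ℚ :=
  ((fun n => psi^[n - N] q : ℕ → ℚ) : Germ (phi : Filter ℕ) ℚ)

/-- group elements of the limit -/
noncomputable def iG (N : ℕ) : (ℚ ≃o ℚ) →* Germ (phi : Filter ℕ) (ℚ ≃o ℚ) where
  toFun g := ((fun n => EE^[n - N] g : ℕ → (ℚ ≃o ℚ)) : Germ (phi : Filter ℕ) (ℚ ≃o ℚ))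
  map_one' := by
    have : (fun n => EE^[n - N] (1 : ℚ ≃o ℚ) : ℕ → (ℚ ≃o ℚ)) = 1 := by
      funext n
      exact iterate_map_one EE _
    rw [this]
    rfl
  map_mul' g h := by
    have : (fun n => EE^[n - N] (g * h) : ℕ → (ℚ ≃o ℚ)) =
        (fun n => EE^[n - N] g) * (fun n => EE^[n - N] h) := by
      funext n
      exact iterate_map_mul EE _ g h
    rw [this]
    rfl

theorem iG_apply (N : ℕ) (g : ℚ ≃o ℚ) : iG N g =
    ((fun n => EE^[n - N] g : ℕ → (ℚ ≃o ℚ)) : Germ (phi : Filter ℕ) (ℚ ≃o ℚ)) := rfl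

theorem iG_injective (N : ℕ) : Function.Injective (iG N) := by
  intro g h hgh
  rw [iG_apply, iG_apply, Germ.coe_eq] at hgh
  obtain ⟨n, hn⟩ := hgh.exists
  exact (EE_injective.iterate _) hn

theorem iX_succ (N : ℕ) (q : ℚ) : iX N q = iX (N + 1) (psi q) := by
  unfold iX
  rw [Germ.coe_eq]
  refine phi_eventually (N + 1) ?_
  intro n hn
  obtain ⟨m, rfl⟩ := Nat.exists_eq_add_of_le hn
  have h1 : N + 1 + m - N = m + 1 := by omega
  have h2 : N + 1 + m - (N + 1) = m := by omega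
  show psi^[N + 1 + m - N] q = psi^[N + 1 + m - (N + 1)] (psi q)
  rw [h1, h2, Function.iterate_succ_apply]

theorem iX_add (N k : ℕ) (q : ℚ) : iX N q = iX (N + k) (psi^[k] q) := by
  induction k with
  | zero => rfl
  | succ k ih =>
    rw [ih, iX_succ, Function.iterate_succ_apply']
    rfl

theorem iG_succ (N : ℕ) (g : ℚ ≃o ℚ) : iG N g = iG (N + 1) (EE g) := by
  rw [iG_apply, iG_apply, Germ.coe_eq]
  refine phi_eventually (N + 1) ?_
  intro n hn
  obtain ⟨m, rfl⟩ := Nat.exists_eq_add_of_le hn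
  have h1 : N + 1 + m - N = m + 1 := by omega
  have h2 : N + 1 + m - (N + 1) = m := by omega
  show EE^[N + 1 + m - N] g = EE^[N + 1 + m - (N + 1)] (EE g)
  rw [h1, h2, Function.iterate_succ_apply]

theorem iG_add_mem (N k : ℕ) {g : ℚ ≃o ℚ} (hg : g ∈ Gam) :
    ∃ g' ∈ Gam, iG N g = iG (N + k) g' := by
  induction k with
  | zero => exact ⟨g, hg, rfl⟩
  | succ k ih =>
    obtain ⟨g', hg', h⟩ := ih
    exact ⟨EE g', EE_Gam hg', by rw [h, iG_succ]; rfl⟩

theorem iX_lt {N : ℕ} {q q' : ℚ} (h : q < q') : iX N q < iX N q' := by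
  unfold iX
  rw [Germ.coe_lt]
  exact Filter.Eventually.of_forall fun n => (psi_strictMono.iterate _) h

theorem iX_strictMono (N : ℕ) : StrictMono (iX N) := fun _ _ h => iX_lt h

theorem EE_iterate (m : ℕ) (g : ℚ ≃o ℚ) (q : ℚ) : EE^[m] g (psi^[m] q) = psi^[m] (g q) := by
  induction m with
  | zero => rfl
  | succ m ih =>
    rw [Function.iterate_succ_apply', Function.iterate_succ_apply', Function.iterate_succ_apply',
      EE_psi, ih]

theorem iG_smul (N : ℕ) (g : ℚ ≃o ℚ) (q : ℚ) : iG N g • iX N q = iX N (g q) := by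
  rw [iG_apply]
  unfold iX
  rw [← Germ.coe_smul', Germ.coe_eq]
  exact Filter.Eventually.of_forall fun n => EE_iterate _ g q

/-- the limit group -/
noncomputable def LG : Subgroup (Germ (phi : Filter ℕ) (ℚ ≃o ℚ)) where
  carrier := {x | ∃ N : ℕ, ∃ g ∈ Gam, x = iG N g}
  one_mem' := ⟨0, 1, one_mem _, by rw [map_one]⟩
  mul_mem' := by
    rintro x y ⟨n, g, hg, rfl⟩ ⟨m, h, hh, rfl⟩
    obtain ⟨g', hg', e1⟩ := iG_add_mem n m hg
    obtain ⟨h', hh', e2⟩ := iG_add_mem m n hh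
    refine ⟨n + m, g' * h', mul_mem hg' hh', ?_⟩
    rw [e1, e2, map_mul, Nat.add_comm m n]
  inv_mem' := by
    rintro x ⟨n, g, hg, rfl⟩
    exact ⟨n, g⁻¹, inv_mem hg, by rw [map_inv]⟩

theorem LG_level {N M : ℕ} (hNM : N ≤ M) {g : ℚ ≃o ℚ} (hg : g ∈ Gam) :
    ∃ g' ∈ Gam, iG N g = iG M g' := by
  obtain ⟨k, rfl⟩ := Nat.exists_eq_add_of_le hNM
  exact iG_add_mem N k hg

theorem FolS_LG : FolS LG := by
  classical
  apply FolS.of_local
  intro S hS
  have hch : ∀ s : Germ (phi : Filter ℕ) (ℚ ≃o ℚ), ∃ N : ℕ, s ∈ S → ∃ g ∈ Gam, s = iG N g := by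
    intro s
    by_cases hs : s ∈ S
    · obtain ⟨N, hN⟩ := hS s hs
      exact ⟨N, fun _ => hN⟩
    · exact ⟨0, fun h => absurd h hs⟩
  choose Φ hΦ using hch
  refine ⟨Gam.map (iG (S.sup Φ)), ?_, ?_, FolS_Gam.map _ (iG_injective _)⟩
  · rintro x ⟨g, hg, rfl⟩
    exact ⟨_, g, hg, rfl⟩
  · intro s hs
    obtain ⟨g, hg, h⟩ := hΦ s hs
    obtain ⟨g', hg', h'⟩ := LG_level (Finset.le_sup (f := Φ) hs) hg
    exact ⟨g', hg', by rw [h, h']⟩

/-- the limit order -/
def LX : Type := {x : Germ (phi : Filter ℕ) ℚ // ∃ (N : ℕ) (q : ℚ), x = iX N q}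

noncomputable instance : LinearOrder LX :=
  inferInstanceAs (LinearOrder {x : Germ (phi : Filter ℕ) ℚ // ∃ (N : ℕ) (q : ℚ), x = iX N q})

theorem LX_level {N M : ℕ} (hNM : N ≤ M) (q : ℚ) : ∃ q' : ℚ, iX N q = iX M q' := by
  obtain ⟨k, rfl⟩ := Nat.exists_eq_add_of_le hNM
  exact ⟨_, iX_add N k q⟩

theorem smul_level {x : Germ (phi : Filter ℕ) (ℚ ≃o ℚ)} (hx : x ∈ LG)
    {y : Germ (phi : Filter ℕ) ℚ} (hy : ∃ (N : ℕ) (q : ℚ), y = iX N q) :
    ∃ (N : ℕ) (q : ℚ), x • y = iX N q := by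
  obtain ⟨N, g, hg, rfl⟩ := hx
  obtain ⟨M, q, rfl⟩ := hy
  obtain ⟨g', hg', h'⟩ := LG_level (le_max_left N M) hg
  obtain ⟨q', hq'⟩ := LX_level (le_max_right N M) q
  refine ⟨max N M, g' q', ?_⟩
  rw [h', hq', iG_smul]

noncomputable instance : MulAction LG LX where
  smul g x := ⟨g.1 • x.1, smul_level g.2 x.2⟩
  one_smul x := Subtype.ext (one_smul _ x.1)
  mul_smul g h x := Subtype.ext (mul_smul g.1 h.1 x.1)

theorem LG_smul_val (g : LG) (x : LX) : (g • x).1 = g.1 • x.1 := rfl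

theorem LG_monotone (g : LG) : Monotone (fun x : LX => g • x) := by
  intro x y hxy
  show (g • x).1 ≤ (g • y).1
  have hxy' : x.1 ≤ y.1 := hxy
  rw [LG_smul_val, LG_smul_val]
  obtain ⟨N, g', hg', hg⟩ := g.2
  obtain ⟨M1, q1, h1⟩ := x.2
  obtain ⟨M2, q2, h2⟩ := y.2
  obtain ⟨g'', hg'', h''⟩ := LG_level (show N ≤ max N (max M1 M2) from le_max_left _ _) hg'
  obtain ⟨q1', hq1⟩ := LX_level (show M1 ≤ max N (max M1 M2) from
    (le_max_left _ _).trans (le_max_right _ _)) q1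
  obtain ⟨q2', hq2⟩ := LX_level (show M2 ≤ max N (max M1 M2) from
    (le_max_right _ _).trans (le_max_right _ _)) q2
  rw [h1, h2, hq1, hq2] at hxy'
  rw [hg, h1, h2, h'', hq1, hq2, iG_smul, iG_smul]
  exact (iX_strictMono _).monotone (g''.monotone ((iX_strictMono _).le_iff_le.1 hxy'))

theorem LG_trans (n : ℕ) (x y : Fin n → LX) (hx : StrictMono x) (hy : StrictMono y) :
    ∃ g : LG, ∀ i, g • x i = y i := by
  have hx' : ∀ i, ∃ (N : ℕ) (q : ℚ), (x i).1 = iX N q := fun i => (x i).2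
  have hy' : ∀ i, ∃ (N : ℕ) (q : ℚ), (y i).1 = iX N q := fun i => (y i).2
  choose N1 q1 h1 using hx'
  choose N2 q2 h2 using hy'
  obtain ⟨M, hM1, hM2⟩ : ∃ M, (∀ i, N1 i ≤ M) ∧ (∀ i, N2 i ≤ M) := by
    refine ⟨max (Finset.univ.sup N1) (Finset.univ.sup N2), ?_, ?_⟩
    · intro i
      exact (Finset.le_sup (f := N1) (Finset.mem_univ i)).trans (le_max_left _ _)
    · intro i
      exact (Finset.le_sup (f := N2) (Finset.mem_univ i)).trans (le_max_right _ _)
  have h1' : ∀ i, ∃ q, (x i).1 = iX M q := by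
    intro i
    obtain ⟨q, hq⟩ := LX_level (hM1 i) (q1 i)
    exact ⟨q, (h1 i).trans hq⟩
  have h2' : ∀ i, ∃ q, (y i).1 = iX M q := by
    intro i
    obtain ⟨q, hq⟩ := LX_level (hM2 i) (q2 i)
    exact ⟨q, (h2 i).trans hq⟩
  choose a ha using h1'
  choose b hb using h2'
  have ham : StrictMono a := by
    intro i j hij
    have h3 : (x i).1 < (x j).1 := hx hij
    rw [ha, ha] at h3
    exact (iX_strictMono M).lt_iff_lt.1 h3
  have hbm : StrictMono b := by
    intro i j hij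
    have h3 : (y i).1 < (y j).1 := hy hij
    rw [hb, hb] at h3
    exact (iX_strictMono M).lt_iff_lt.1 h3
  obtain ⟨g, hg, hgab⟩ := trans_level n a b ham hbm
  refine ⟨⟨iG (M + n) g, M + n, g, hg, rfl⟩, ?_⟩
  intro i
  apply Subtype.ext
  rw [LG_smul_val, ha, hb, iX_add M n, iX_add M n (b i), iG_smul, hgab]

theorem LX_nontrivial : Nontrivial LX := by
  refine ⟨⟨⟨iX 0 0, 0, 0, rfl⟩, ⟨iX 0 1, 0, 1, rfl⟩, ?_⟩⟩
  intro h
  have h1 : iX 0 0 = iX 0 1 := congrArg Subtype.val h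
  exact absurd h1 (iX_lt (by norm_num)).ne

end Pool.Agent.Lib.MP_52bd65_al
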