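import Pool.Agent.Lib.MP_52bd65_al.Folner

set_option autoImplicit false
open scoped Topology

namespace Pool.Agent.Lib.MP_52bd65_al

variable {Y : Type} [LinearOrder Y]

/-- coefficient of a finitely supported function in the colexicographic type -/
def ev (v : Colex (Y →₀ ℤ)) (y : Y) : ℤ := (ofColex v : Y →₀ ℤ) y

theorem lt_iff_ev {v w : Colex (Y →₀ ℤ)} :
    v < w ↔ ∃ i, (∀ j, i < j → ev v j = ev w j) ∧ ev v i < ev w i := Iff.rfl

theorem ext_ev {v w : Colex (Y →₀ ℤ)} (h : ∀ y, ev v y = ev w y) : v = w :=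
  Finsupp.ext h

theorem ev_add (v w : Colex (Y →₀ ℤ)) (y : Y) : ev (v + w) y = ev v y + ev w y := rfl
theorem ev_sub (v w : Colex (Y →₀ ℤ)) (y : Y) : ev (v - w) y = ev v y - ev w y := rfl
theorem ev_zero (y : Y) : ev (0 : Colex (Y →₀ ℤ)) y = 0 := rfl

/-- basis vector -/
noncomputable def de (y : Y) : Colex (Y →₀ ℤ) := toColex (Finsupp.single y 1)

theorem ev_de (y z : Y) : ev (de y) z = if y = z then 1 else 0 := by
  classical
  unfold ev de
  rw [ofColex_toColex, Finsupp.single_apply]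

theorem ev_de_self (y : Y) : ev (de y) y = 1 := by rw [ev_de, if_pos rfl]
theorem ev_de_ne {y z : Y} (h : y ≠ z) : ev (de y) z = 0 := by rw [ev_de, if_neg h]

theorem de_lt {y z : Y} (h : y < z) : de y < de z := by
  rw [lt_iff_ev]
  refine ⟨z, ?_, ?_⟩
  · intro j hj
    rw [ev_de_ne (h.trans hj).ne, ev_de_ne hj.ne]
  · rw [ev_de_ne h.ne, ev_de_self]
    norm_num

/-- displacement at `y` depends only on the coordinates above `y` -/
def Tri (f : Colex (Y →₀ ℤ) → Colex (Y →₀ ℤ)) : Prop :=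
  ∀ v w y, (∀ y', y < y' → ev v y' = ev w y') → ev (f v) y - ev v y = ev (f w) y - ev w y

/-- displacement vanishes outside `F` -/
def Sup (F : Finset Y) (f : Colex (Y →₀ ℤ) → Colex (Y →₀ ℤ)) : Prop :=
  ∀ v, ∀ y ∉ F, ev (f v) y = ev v y

theorem Tri.agree {f : Colex (Y →₀ ℤ) → Colex (Y →₀ ℤ)} (hf : Tri f) {v w : Colex (Y →₀ ℤ)}
    {y : Y} (h : ∀ y', y < y' → ev v y' = ev w y') : ∀ y', y < y' → ev (f v) y' = ev (f w) y' := by
  intro y' hy'
  have h1 := hf v w y' (fun z hz => h z (hy'.trans hz))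
  have h2 := h y' hy'
  linarith

theorem Tri.strictMono {f : Colex (Y →₀ ℤ) → Colex (Y →₀ ℤ)} (hf : Tri f) : StrictMono f := by
  intro v w hvw
  rw [lt_iff_ev] at hvw ⊢
  obtain ⟨i, h1, h2⟩ := hvw
  refine ⟨i, hf.agree h1, ?_⟩
  have := hf v w i h1
  linarith

theorem Tri.comp {f g : Colex (Y →₀ ℤ) → Colex (Y →₀ ℤ)} (hf : Tri f) (hg : Tri g) :
    Tri (fun v => f (g v)) := by
  intro v w y h
  have h1 := hf (g v) (g w) y (hg.agree h)
  have h2 := hg v w y h
  simp only
  linarith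

theorem Sup.comp {F : Finset Y} {f g : Colex (Y →₀ ℤ) → Colex (Y →₀ ℤ)} (hf : Sup F f)
    (hg : Sup F g) : Sup F (fun v => f (g v)) := by
  intro v y hy
  simp only
  rw [hf _ y hy, hg _ y hy]

theorem Sup.mono {F F' : Finset Y} (hF : F ⊆ F') {f : Colex (Y →₀ ℤ) → Colex (Y →₀ ℤ)}
    (hf : Sup F f) : Sup F' f := fun v y hy => hf v y (fun h => hy (hF h))

/-- the triangular displacement group with support in `F` -/
def WF (F : Finset Y) : Subgroup (Colex (Y →₀ ℤ) ≃o Colex (Y →₀ ℤ)) where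
  carrier := {f | Tri f ∧ Tri ⇑(f⁻¹ : Colex (Y →₀ ℤ) ≃o Colex (Y →₀ ℤ)) ∧ Sup F f}
  one_mem' := by
    refine ⟨fun v w y h => ?_, fun v w y h => ?_, fun v y h => rfl⟩
    · show ev v y - ev v y = ev w y - ev w y
      ring
    · show ev v y - ev v y = ev w y - ev w y
      ring
  mul_mem' := by
    rintro f g ⟨h1, h2, h3⟩ ⟨k1, k2, k3⟩
    exact ⟨h1.comp k1, k2.comp h2, h3.comp k3⟩
  inv_mem' := by
    rintro f ⟨h1, h2, h3⟩
    refine ⟨h2, by rwa [inv_inv], ?_⟩
    intro v y hy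
    have := h3 (f⁻¹ v) y hy
    have e : f (f⁻¹ v) = v := RelIso.apply_inv_self f v
    rw [e] at this
    exact this.symm

theorem mem_WF {F : Finset Y} {f : Colex (Y →₀ ℤ) ≃o Colex (Y →₀ ℤ)} :
    f ∈ WF F ↔ Tri f ∧ Tri ⇑(f⁻¹ : Colex (Y →₀ ℤ) ≃o Colex (Y →₀ ℤ)) ∧ Sup F f := Iff.rfl

theorem FolS_WF (F : Finset Y) : FolS (WF F) := by
  classical
  induction F using Finset.induction_on_max with
  | empty =>
    have : WF (∅ : Finset Y) = ⊥ := by
      rw [eq_bot_iff]
      rintro f ⟨h1, h2, h3⟩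
      rw [Subgroup.mem_bot]
      refine RelIso.ext fun v => ext_ev fun y => ?_
      exact h3 v y (by simp)
    rw [this]
    exact FolS.bot
  | insert a F hmax ih =>
    have ha : a ∉ F := fun h => lt_irrefl _ (hmax a h)
    refine FolS.ext_comm (A := Multiplicative (Colex (Y →₀ ℤ) → ℤ)) (K' := WF F)
      (fun f => Multiplicative.ofAdd (fun v => ev (f v) a - ev v a)) ?_ ?_ ?_ ih
    · rintro f ⟨h1, h2, h3⟩ g ⟨k1, k2, k3⟩
      rw [← ofAdd_add]
      congr 1
      funext v
      show ev (f (g v)) a - ev v a = (ev (f v) a - ev v a) + (ev (g v) a - ev v a)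
      have h4 := h1 (g v) v a (fun y' hy' => k3 v y' (by
        rw [Finset.mem_insert]
        rintro (h | h)
        · exact hy'.ne' h
        · exact lt_asymm hy' (hmax _ h)))
      linarith
    · rintro f ⟨h1, h2, h3⟩ h4
      refine ⟨h1, h2, ?_⟩
      intro v y hy
      by_cases hya : y = a
      · subst hya
        have h5 : (fun v => ev (f v) y - ev v y) = (0 : Colex (Y →₀ ℤ) → ℤ) :=
          Multiplicative.ofAdd.injective h4
        have h6 := congrFun h5 v
        simp only [Pi.zero_apply] at h6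
        linarith
      · exact h3 v y (by rw [Finset.mem_insert]; tauto)
    · rintro f ⟨h1, h2, h3⟩
      refine ⟨⟨h1, h2, h3.mono (Finset.subset_insert _ _)⟩, ?_⟩
      have h5 : (fun v => ev (f v) a - ev v a) = (0 : Colex (Y →₀ ℤ) → ℤ) := by
        funext v
        rw [h3 v a ha]
        simp
      rw [h5]
      rfl

/-- the full triangular displacement group -/
def WW (Y : Type) [LinearOrder Y] : Subgroup (Colex (Y →₀ ℤ) ≃o Colex (Y →₀ ℤ)) where
  carrier := {f | ∃ F : Finset Y, f ∈ WF F}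
  one_mem' := ⟨∅, one_mem _⟩
  mul_mem' := by
    classical
    rintro f g ⟨F, h1, h2, h3⟩ ⟨F', k1, k2, k3⟩
    exact ⟨F ∪ F', mul_mem ⟨h1, h2, h3.mono Finset.subset_union_left⟩
      ⟨k1, k2, k3.mono Finset.subset_union_right⟩⟩
  inv_mem' := by
    rintro f ⟨F, h⟩
    exact ⟨F, inv_mem h⟩

theorem mem_WW {f : Colex (Y →₀ ℤ) ≃o Colex (Y →₀ ℤ)} : f ∈ WW Y ↔ ∃ F : Finset Y, f ∈ WF F :=
  Iff.rfl

theorem FolS_WW : FolS (WW Y) := by
  classical
  apply FolS.of_local
  intro S hS
  have hch : ∀ s : Colex (Y →₀ ℤ) ≃o Colex (Y →₀ ℤ), ∃ F : Finset Y, s ∈ S → s ∈ WF F := by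
    intro s
    by_cases hs : s ∈ S
    · obtain ⟨F, hF⟩ := hS s hs
      exact ⟨F, fun _ => hF⟩
    · exact ⟨∅, fun h => absurd h hs⟩
  choose Φ hΦ using hch
  refine ⟨WF (S.biUnion Φ), fun f hf => ⟨_, hf⟩, ?_, FolS_WF _⟩
  intro s hs
  obtain ⟨h1, h2, h3⟩ := hΦ s hs
  exact ⟨h1, h2, h3.mono (Finset.subset_biUnion_of_mem Φ hs)⟩

/-- permutation of coordinates -/
noncomputable def pe (g : Y ≃o Y) : Colex (Y →₀ ℤ) ≃o Colex (Y →₀ ℤ) where
  toFun v := toColex (Finsupp.equivMapDomain g.toEquiv (ofColex v))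
  invFun v := toColex (Finsupp.equivMapDomain g.symm.toEquiv (ofColex v))
  left_inv v := by
    apply ext_ev
    intro y
    show (ofColex v : Y →₀ ℤ) (g.symm (g y)) = (ofColex v : Y →₀ ℤ) y
    rw [OrderIso.symm_apply_apply]
  right_inv v := by
    apply ext_ev
    intro y
    show (ofColex v : Y →₀ ℤ) (g (g.symm y)) = (ofColex v : Y →₀ ℤ) y
    rw [OrderIso.apply_symm_apply]
  map_rel_iff' := by
    have key : ∀ (g : Y ≃o Y) (v w : Colex (Y →₀ ℤ)), v < w →
        (toColex (Finsupp.equivMapDomain g.toEquiv (ofColex v)) : Colex (Y →₀ ℤ)) <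
          toColex (Finsupp.equivMapDomain g.toEquiv (ofColex w)) := by
      intro g v w hvw
      rw [lt_iff_ev] at hvw ⊢
      obtain ⟨i, h1, h2⟩ := hvw
      refine ⟨g i, ?_, ?_⟩
      · intro j hj
        show ev v (g.symm j) = ev w (g.symm j)
        apply h1
        rwa [OrderIso.lt_symm_apply]
      · show ev v (g.symm (g i)) < ev w (g.symm (g i))
        rwa [OrderIso.symm_apply_apply]
    intro v w
    constructor
    · intro h
      by_contra hlt
      rw [not_le] at hlt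
      exact absurd h (not_le.2 (key g w v hlt))
    · intro h
      rcases h.lt_or_eq with h | h
      · exact (key g v w h).le
      · rw [h]

theorem ev_pe (g : Y ≃o Y) (v : Colex (Y →₀ ℤ)) (y : Y) : ev (pe g v) y = ev v (g.symm y) := rfl

theorem pe_de (g : Y ≃o Y) (y : Y) : pe g (de y) = de (g y) := by
  apply ext_ev
  intro z
  rw [ev_pe, ev_de, ev_de]
  by_cases h : g y = z
  · rw [if_pos h, if_pos (by rw [← h, OrderIso.symm_apply_apply])]
  · rw [if_neg h, if_neg (fun h' => h (by rw [h', OrderIso.apply_symm_apply]))]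

/-- the homomorphism form -/
noncomputable def peHom : (Y ≃o Y) →* (Colex (Y →₀ ℤ) ≃o Colex (Y →₀ ℤ)) where
  toFun := pe
  map_one' := RelIso.ext fun v => ext_ev fun y => rfl
  map_mul' g h := RelIso.ext fun v => ext_ev fun y => rfl

theorem pe_norm (g : Y ≃o Y) {f : Colex (Y →₀ ℤ) ≃o Colex (Y →₀ ℤ)} (hf : f ∈ WW Y) :
    peHom g * f * (peHom g)⁻¹ ∈ WW Y := by
  classical
  obtain ⟨F, h1, h2, h3⟩ := hf
  have key : ∀ f : Colex (Y →₀ ℤ) → Colex (Y →₀ ℤ), Tri f →
      Tri (fun v => peHom g (f ((peHom g)⁻¹ v))) := by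
    intro f hf v w y h
    show ev (f ((pe g)⁻¹ v)) (g.symm y) - ev v y = ev (f ((pe g)⁻¹ w)) (g.symm y) - ev w y
    have e : ∀ v : Colex (Y →₀ ℤ), ∀ y, ev ((pe g)⁻¹ v) y = ev v (g y) := fun v y => rfl
    have h4 := hf ((pe g)⁻¹ v) ((pe g)⁻¹ w) (g.symm y) (by
      intro y' hy'
      rw [e, e]
      apply h
      rwa [OrderIso.symm_apply_lt] at hy')
    rw [e, e, OrderIso.apply_symm_apply] at h4
    exact h4
  refine ⟨F.image g, key f h1, ?_, ?_⟩
  · have h5 : (peHom g * f * (peHom g)⁻¹)⁻¹ = peHom g * f⁻¹ * (peHom g)⁻¹ := by group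
    rw [h5]
    exact key (f⁻¹ : Colex (Y →₀ ℤ) ≃o Colex (Y →₀ ℤ)) h2
  · intro v y hy
    show ev (f ((pe g)⁻¹ v)) (g.symm y) = ev v y
    rw [h3 _ (g.symm y)]
    · show ev v (g (g.symm y)) = ev v y
      rw [OrderIso.apply_symm_apply]
    · intro h6
      apply hy
      rw [Finset.mem_image]
      exact ⟨_, h6, OrderIso.apply_symm_apply _ _⟩

theorem pe_disj {g : Y ≃o Y} (hf : peHom g ∈ WW Y) : g = 1 := by
  obtain ⟨F, h1, h2, h3⟩ := hf
  refine RelIso.ext fun y => ?_
  have h4 := h1 (de y) 0 y (by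
    intro y' hy'
    rw [ev_de_ne hy'.ne, ev_zero])
  have h5 : ev (peHom g (0 : Colex (Y →₀ ℤ))) y = 0 := rfl
  have h6 : peHom g (de y) = de (g y) := pe_de g y
  rw [h5, h6, ev_de_self, ev_zero, sub_zero] at h4
  have h7 : ev (de (g y)) y = 1 := by linarith
  rw [ev_de] at h7
  show g y = y
  by_contra hne
  rw [if_neg hne] at h7
  norm_num at h7

/-- local translations -/
theorem exists_local (z y c : Y) (hz : z < c) (hy : y < c) :
    ∃ s ∈ WW Y, s (de z) = de y ∧ ∀ x, c ≤ x → s (de x) = de x := by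
  classical
  let leaf : Colex (Y →₀ ℤ) → Prop := fun v => ∀ x, c ≤ x → ev v x = 0
  have hleaf : ∀ (v w : Colex (Y →₀ ℤ)), (∀ x, c ≤ x → ev w x = 0) → (leaf (v + w) ↔ leaf v) := by
    intro v w hw
    constructor
    · intro h x hx
      have := h x hx
      rw [ev_add, hw x hx, add_zero] at this
      exact this
    · intro h x hx
      rw [ev_add, hw x hx, add_zero]
      exact h x hx
  let sf : Colex (Y →₀ ℤ) → Colex (Y →₀ ℤ) → Colex (Y →₀ ℤ) :=
    fun d v => if leaf v then v + d else v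
  have hd : ∀ a b : Y, a < c → b < c → ∀ x, c ≤ x → ev (de a - de b) x = 0 := by
    intro a b ha hb x hx
    rw [ev_sub, ev_de_ne (lt_of_lt_of_le ha hx).ne, ev_de_ne (lt_of_lt_of_le hb hx).ne, sub_zero]
  have htri : ∀ a b : Y, a < c → b < c → Tri (sf (de a - de b)) := by
    intro a b ha hb v w x h
    simp only [sf]
    by_cases hx : c ≤ x
    · have h0 := hd a b ha hb x hx
      have h00 : ∀ u : Colex (Y →₀ ℤ),
          ev (if leaf u then u + (de a - de b) else u) x = ev u x := by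
        intro u
        split_ifs
        · rw [ev_add, h0, add_zero]
        · rfl
      rw [h00, h00]
      ring
    · rw [not_le] at hx
      have hl : leaf v ↔ leaf w := by
        constructor
        · intro hv t ht
          rw [← h t (lt_of_lt_of_le hx ht)]
          exact hv t ht
        · intro hv t ht
          rw [h t (lt_of_lt_of_le hx ht)]
          exact hv t ht
      by_cases hv : leaf v
      · rw [if_pos hv, if_pos (hl.1 hv), ev_add, ev_add]
        ring
      · rw [if_neg hv, if_neg (fun h => hv (hl.2 h))]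
        ring
  have hinv : ∀ a b : Y, a < c → b < c → ∀ v, sf (de a - de b) (sf (de b - de a) v) = v := by
    intro a b ha hb v
    simp only [sf]
    by_cases hv : leaf v
    · rw [if_pos hv, if_pos ((hleaf v _ (hd b a hb ha)).2 hv)]
      abel
    · rw [if_neg hv, if_neg hv]
  let s : Colex (Y →₀ ℤ) ≃o Colex (Y →₀ ℤ) :=
    StrictMono.orderIsoOfRightInverse (sf (de y - de z)) (htri y z hy hz).strictMono
      (sf (de z - de y)) (hinv y z hy hz)
  refine ⟨s, ⟨{y, z}, htri y z hy hz, htri z y hz hy, ?_⟩, ?_, ?_⟩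
  · intro v x hx
    show ev (sf (de y - de z) v) x = ev v x
    rw [Finset.mem_insert, Finset.mem_singleton] at hx
    push Not at hx
    simp only [sf]
    split_ifs
    · rw [ev_add, ev_sub, ev_de_ne hx.1.symm, ev_de_ne hx.2.symm]
      ring
    · rfl
  · show sf (de y - de z) (de z) = de y
    have : leaf (de z) := by
      intro x hx
      exact ev_de_ne (lt_of_lt_of_le hz hx).ne
    simp only [sf, if_pos this]
    abel
  · intro x hx
    show sf (de y - de z) (de x) = de x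
    have : ¬ leaf (de x) := by
      intro h
      have := h x hx
      rw [ev_de_self] at this
      norm_num at this
    simp only [sf, if_neg this]

end Pool.Agent.Lib.MP_52bd65_al
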